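import Pool.Agent.H79.QF.Targets

/-!
# The sum of the harmonic numbers (row HA1 of qfg_modules)
-/

set_option autoImplicit false

open Finset Matrix Pool.Agent.H79.QF

namespace Pool.Agent.H40.QF.HA1

theorem sum_h (R : ℕ) : ∑ t ∈ range R, ∑ r ∈ range (t + 1), 1 / ((r : ℝ) + 1) =
    ((R : ℝ) + 1) * (∑ r ∈ range R, 1 / ((r : ℝ) + 1)) - R := by
  induction R with
  | zero => simp
  | succ R ih =>
    rw [sum_range_succ, ih, sum_range_succ _ R]
    have h : ((R : ℝ) + 1) ≠ 0 := by positivity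
    push_cast
    field_simp
    ring

theorem harmonic_ge (R : ℕ) (hR : 1 ≤ R) :
    Real.log R + 1 / 2 ≤ ∑ r ∈ range R, 1 / ((r : ℝ) + 1) := by
  have h1 := Real.one_half_lt_eulerMascheroniConstant
  have h2 := Real.eulerMascheroniConstant_lt_eulerMascheroniSeq' R
  unfold Real.eulerMascheroniSeq' at h2
  rw [if_neg (by omega)] at h2
  have h3 : ((harmonic R : ℚ) : ℝ) = ∑ r ∈ range R, 1 / ((r : ℝ) + 1) := by
    unfold harmonic
    push_cast
    exact sum_congr rfl fun i _ => by rw [one_div]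
  rw [h3] at h2
  linarith

/-- HA1: the sum of the harmonic numbers -/
theorem pf_HA1 : T_HA1 := by
  intro R hR
  have h1 : ∀ t : ℕ, ∑ r ∈ range (t + 1), 1 / ((t : ℝ) - r + 1) =
      ∑ r ∈ range (t + 1), 1 / ((r : ℝ) + 1) := by
    intro t
    rw [← sum_range_reflect (fun r : ℕ => 1 / ((r : ℝ) + 1)) (t + 1)]
    refine sum_congr rfl fun r hr => ?_
    rw [mem_range] at hr
    have h2 : ((t + 1 - 1 - r : ℕ) : ℝ) = (t : ℝ) - r := by
      rw [Nat.add_sub_cancel, Nat.cast_sub (by omega)]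
    rw [h2]
  rw [sum_congr rfl fun t _ => h1 t, sum_h]
  have h2 := harmonic_ge R hR
  have h3 : 0 ≤ Real.log R := Real.log_natCast_nonneg R
  have h4 : (1 : ℝ) ≤ R := by exact_mod_cast hR
  nlinarith

end Pool.Agent.H40.QF.HA1
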